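import Pool.Agent.H255R.MR.Defs

/-!
# Families of classes
-/

open CategoryTheory AlgebraicGeometry

universe u v w x

namespace Pool.Agent.H255R.MR

open Pool.Agent.H914 Pool.Agent.H914.VarClass Pool.Agent.H914.VarClass.Obj Pool.Agent.W492.BB
  Pool.Agent.W550.Corr Pool.Agent.TH133 Pool.Agent.H255R.HR

variable {k : Type u} [Field k] {𝒱 : VarClass k} {C : TheoryData.{u, v, 0} 𝒱 ℚ}

/-- A family of classes in the groups `M(X)`, for all `X`, indexed by the integers `r` (the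
codimension, or the weight): rational subspaces, preserved by pull-backs, push-forwards and products
with cycles. -/
structure Fam (M : ModData.{u, v, x} C) where
  /-- `Mem X r t`: the class `t ∈ M(X)` is in the family, in codimension `r` -/
  Mem : ∀ X : 𝒱.Obj, ℤ → M.A X → Prop
  zero : ∀ (X : 𝒱.Obj) (r : ℤ), Mem X r 0
  add : ∀ {X : 𝒱.Obj} {r : ℤ} {s t : M.A X}, Mem X r s → Mem X r t → Mem X r (s + t)
  smul : ∀ {X : 𝒱.Obj} {r : ℤ} {t : M.A X} (q : ℚ), Mem X r t → Mem X r (q • t)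
  up : ∀ {X Y : 𝒱.Obj} (f : X ⟶ Y) {r : ℤ} {t : M.A Y}, Mem Y r t → Mem X r (M.up f t)
  down : ∀ {X Y : 𝒱.Obj} (f : X ⟶ Y) {r s : ℤ} {t : M.A X}, r + Y.dim = s + X.dim → Mem X r t →
    Mem Y s (M.down f t)
  act : ∀ {X : 𝒱.Obj} {r s : ℤ} {t : M.A X} {z : C.A X}, Mem X r t → C.Deg s z →
    Mem X (r + s) (M.act z t)

end Pool.Agent.H255R.MR
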