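import Pool.Agent.H255R.MR.TDefs
import Pool.Agent.H255R.MR.FamDefs

/-!
# Transformations of module theories: definitions
-/

open CategoryTheory AlgebraicGeometry

universe u v w x

namespace Pool.Agent.H255R.MR

open Pool.Agent.H914 Pool.Agent.H914.VarClass Pool.Agent.H914.VarClass.Obj Pool.Agent.W492.BB
  Pool.Agent.W550.Corr Pool.Agent.TH133 Pool.Agent.H255R.HR

variable {k : Type u} [Field k] {𝒱 : VarClass k} {C : TheoryData.{u, v, 0} 𝒱 ℚ}

/-- The map `φ X` is injective in the weights `r ≤ R` (the classes of weight `r` are those of the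
family `𝓜`). -/
def InjUpTo {M D : ModData.{u, v, x} C} (φ : ∀ X, M.A X → D.A X) (𝓜 : Fam M) (R : ℤ)
    (X : 𝒱.Obj) : Prop :=
  ∀ r ≤ R, ∀ t : M.A X, 𝓜.Mem X r t → φ X t = 0 → t = 0

/-- The map `φ X` is surjective in the weights `r ≤ R` (the classes of weight `r` are those of the
families `𝓜` and `𝓓`). -/
def SurjUpTo {M D : ModData.{u, v, x} C} (φ : ∀ X, M.A X → D.A X) (𝓜 : Fam M) (𝓓 : Fam D) (R : ℤ)
    (X : 𝒱.Obj) : Prop :=
  ∀ r ≤ R, ∀ d : D.A X, 𝓓.Mem X r d → ∃ t : M.A X, 𝓜.Mem X r t ∧ φ X t = d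

/-- The classes of weight `r ≤ R` in `M(X)` are zero. -/
def ZeroUpTo {M : ModData.{u, v, x} C} (𝓜 : Fam M) (R : ℤ) (X : 𝒱.Obj) : Prop :=
  ∀ r ≤ R, ∀ t : M.A X, 𝓜.Mem X r t → t = 0

end Pool.Agent.H255R.MR
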