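import Pool.Agent.H255R.MR.Main
import Pool.Agent.H255R.MR.MDefs

/-!
# Transformations of module theories
-/

open CategoryTheory AlgebraicGeometry

universe u v w x

namespace Pool.Agent.H255R.MR

open Pool.Agent.H914 Pool.Agent.H914.VarClass Pool.Agent.H914.VarClass.Obj Pool.Agent.W492.BB
  Pool.Agent.W550.Corr Pool.Agent.TH133 Pool.Agent.H255R.HR

set_option linter.unusedSectionVars false

variable {k : Type u} [Field k] {𝒱 : VarClass k} {C : TheoryData.{u, v, 0} 𝒱 ℚ}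

section map

variable {M D : ModData.{u, v, x} C} [hM : IsModTheory M] [hD : IsModTheory D]
  {φ : ∀ X, M.A X → D.A X} (hφ : IsTransformation M D φ)

include hφ

/-- The map as a homomorphism. -/
def phiH (X : 𝒱.Obj) : M.A X →+ D.A X where
  toFun := φ X
  map_zero' := by
    have h := hφ.add (X := X) 0 0
    rw [add_zero] at h
    exact left_eq_add.1 h
  map_add' := hφ.add

lemma phi_zero (X : 𝒱.Obj) : φ X 0 = 0 := map_zero (phiH hφ X)

lemma phi_smul {X : 𝒱.Obj} (q : ℚ) (t : M.A X) : φ X (q • t) = q • φ X t :=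
  map_rat_smul (phiH hφ X) q t

/-- The kernel of a transformation. -/
def kerFam (𝓜 : Fam M) : Fam M where
  Mem X r t := 𝓜.Mem X r t ∧ φ X t = 0
  zero X r := ⟨𝓜.zero X r, phi_zero hφ X⟩
  add := fun hs ht => ⟨𝓜.add hs.1 ht.1, by rw [hφ.add, hs.2, ht.2, add_zero]⟩
  smul := fun q ht => ⟨𝓜.smul q ht.1, by rw [phi_smul hφ, ht.2, smul_zero]⟩
  up := by
    intro X Y f r t ht
    exact ⟨𝓜.up f ht.1, by rw [hφ.up, ht.2]; exact map_zero (upH f)⟩
  down := by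
    intro X Y f r s t h ht
    exact ⟨𝓜.down f h ht.1, by rw [hφ.down, ht.2]; exact map_zero (downH f)⟩
  act := by
    intro X r s t z ht hz
    exact ⟨𝓜.act ht.1 hz, by rw [hφ.act, ht.2]; exact map_zero (actH z)⟩

/-- The image of a transformation. -/
def imFam (𝓜 : Fam M) : Fam D where
  Mem X r d := ∃ t, 𝓜.Mem X r t ∧ φ X t = d
  zero X r := ⟨0, 𝓜.zero X r, phi_zero hφ X⟩
  add := by
    rintro X r s t ⟨a, ha, rfl⟩ ⟨b, hb, rfl⟩
    exact ⟨a + b, 𝓜.add ha hb, hφ.add a b⟩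
  smul := by
    rintro X r t q ⟨a, ha, rfl⟩
    exact ⟨q • a, 𝓜.smul q ha, phi_smul hφ q a⟩
  up := by
    rintro X Y f r t ⟨a, ha, rfl⟩
    exact ⟨_, 𝓜.up f ha, hφ.up f a⟩
  down := by
    rintro X Y f r s t h ⟨a, ha, rfl⟩
    exact ⟨_, 𝓜.down f h ha, hφ.down f a⟩
  act := by
    rintro X r s t z ⟨a, ha, rfl⟩ hz
    exact ⟨_, 𝓜.act ha hz, hφ.act z a⟩

end map

/-- The zero family. -/
def zeroFam (M : ModData.{u, v, x} C) [hM : IsModTheory M] : Fam M where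
  Mem X r t := t = 0
  zero X r := rfl
  add := by rintro X r s t rfl rfl; exact add_zero 0
  smul := by rintro X r t q rfl; exact smul_zero _
  up := by rintro X Y f r t rfl; exact map_zero (upH f)
  down := by rintro X Y f r s t _ rfl; exact map_zero (downH f)
  act := by rintro X r s t z rfl _; exact map_zero (actH z)

section

variable {M D : ModData.{u, v, x} C} [hM : IsModTheory M] [hD : IsModTheory D]
  {φ : ∀ X, M.A X → D.A X} (hφ : IsTransformation M D φ) (𝓜 : Fam M) (𝓓 : Fam D) (R : ℤ)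
  (X : 𝒱.Obj)

lemma good_inj : GoodM (kerFam hφ 𝓜) (zeroFam M) R X ↔ InjUpTo φ 𝓜 R X :=
  ⟨fun h r hr t ht h0 => h r hr t ⟨ht, h0⟩, fun h r hr t ht => h r hr t ht.1 ht.2⟩

lemma good_surj : GoodM 𝓓 (imFam hφ 𝓜) R X ↔ SurjUpTo φ 𝓜 𝓓 R X := Iff.rfl

lemma good_zero : GoodM 𝓜 (zeroFam M) R X ↔ ZeroUpTo 𝓜 R X := Iff.rfl

end

/-- The codimension. -/
def chowFam (C : TheoryData.{u, v, 0} 𝒱 ℚ) [hC : IsChowProj C] : Fam (chowMod C) where
  Mem X r t := C.Deg r t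
  zero X r := Submodule.zero_mem _
  add := fun hs ht => Submodule.add_mem _ hs ht
  smul := fun q ht => Submodule.smul_mem _ q ht
  up := by
    intro X Y f r t ht
    exact C.pull_mem f ht
  down := by
    intro X Y f r s t hrs ht
    have h := C.push_mem f ht
    exact Y148.BB.gr_congr (by omega) h
  act := by
    intro X r s t z ht hz
    exact Y148.BB.gr_congr (add_comm s r) (C.mul_mem hz ht)

end Pool.Agent.H255R.MR

namespace Pool.Agent.H255R.MR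

open Pool.Agent.H914 Pool.Agent.H914.VarClass Pool.Agent.H914.VarClass.Obj Pool.Agent.W492.BB
  Pool.Agent.W550.Corr Pool.Agent.TH133 Pool.Agent.H255R.HR

variable {k : Type u} [Field k] {𝒱 : VarClass k} {C : TheoryData.{u, v, 0} 𝒱 ℚ}

/-- The main equivalences, for one pair of families. -/
theorem tfae1 [hC : IsChowProj C] {F : Type w} [Field F] [CharZero F]
    {H : WeilTheoryData.{u, v, w} C F} [hH : IsWeilProj H] {M : ModData.{u, v, x} C}
    [hM : IsModTheory M] {𝓜 𝓝 : Fam M} {𝒞 : 𝒱.Obj → Prop} (hG : HasGalQuotients.{u, v, w, x} H 𝒞)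
    (U : 𝒱.Obj) (R : ℤ) (N : ℕ) (P : 𝒱.Obj → Prop) (hP : ∀ X, P X ↔ GoodM 𝓜 𝓝 R X) :
    List.TFAE [
      ∀ m ≤ N, ∀ A : 𝒱.Obj, IsProdOf U (IsRegDominated.{u, v, w, x} H 𝒞) m A →
        P A ∧ ∀ S : 𝒱.Obj, 𝒞 S → P (A.prod S),
      ∀ m ≤ N, ∀ A : 𝒱.Obj, IsProdOf U (IsDominated.{u, v, x} C 𝒞) m A →
        P A ∧ ∀ S : 𝒱.Obj, 𝒞 S → P (A.prod S),
      ∀ n ≤ 2 * N + 1, ∀ W : 𝒱.Obj, IsProdOf U 𝒞 n W → P W,
      ∀ n ≤ 2 * N + 1, ∀ W X : 𝒱.Obj, IsProdOf U 𝒞 n W → IsDominatedBy C W X → P X] :=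
  tfaeM (M := M) (M' := M) (𝓜 := 𝓜) (𝓝 := 𝓝) (𝓜' := zeroFam M) (𝓝' := zeroFam M) hG U R N P
    fun X => (hP X).trans ⟨fun h => ⟨h, fun _ _ _ ht => ht⟩, fun h => h.1⟩

end Pool.Agent.H255R.MR
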