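import Pool.Agent.H255R.MR.Map
import Pool.Agent.TH829.Prime.Theory
import Pool.Agent.TH829.Prime.Num

/-!
# Adequate equivalence relations as families
-/

open CategoryTheory AlgebraicGeometry

universe u v w x

namespace Pool.Agent.H255R.MR

open Pool.Agent.H914 Pool.Agent.H914.VarClass Pool.Agent.H914.VarClass.Obj Pool.Agent.W492.BB
  Pool.Agent.W550.Corr Pool.Agent.TH133 Pool.Agent.TH829.Prime Pool.Agent.H255R.HR

set_option linter.unusedSectionVars false

variable {k : Type u} [Field k] {𝒱 : VarClass k} {C : TheoryData.{u, v, 0} 𝒱 ℚ}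

/-- An adequate equivalence relation, as a family of classes in the Chow groups. -/
def adFam [hC : IsChowProj C] {I : Family C} (hI : IsAdequate C I) : Fam (chowMod C) where
  Mem X r t := t ∈ I X r
  zero X r := Submodule.zero_mem _
  add := fun hs ht => Submodule.add_mem _ hs ht
  smul := fun q ht => Submodule.smul_mem _ q ht
  up := by
    intro X Y f r t ht
    exact hI.pull_mem f ht
  down := by
    intro X Y f r s t hrs ht
    exact hI.congr (by omega) (hI.push_mem f ht)
  act := by
    intro X r s t z ht hz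
    exact hI.congr (add_comm s r) (hI.mul_mem' hz ht)

/-- The smash-nilpotent classes. -/
def smashFam (C : TheoryData.{u, v, 0} 𝒱 ℚ) [hC : IsChowProj C] : Fam (chowMod C) where
  Mem X r t := C.Deg r t ∧ ∀ P : Family C, IsPrime C P → t ∈ P X r
  zero X r := ⟨Submodule.zero_mem _, fun P _ => Submodule.zero_mem _⟩
  add := fun hs ht => ⟨Submodule.add_mem _ hs.1 ht.1,
    fun P hP => Submodule.add_mem _ (hs.2 P hP) (ht.2 P hP)⟩
  smul := fun q ht => ⟨Submodule.smul_mem _ q ht.1, fun P hP => Submodule.smul_mem _ q (ht.2 P hP)⟩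
  up := by
    intro X Y f r t ht
    exact ⟨(chowFam C).up f ht.1, fun P hP => (adFam hP.toIsAdequate).up f (ht.2 P hP)⟩
  down := by
    intro X Y f r s t hrs ht
    exact ⟨(chowFam C).down f hrs ht.1, fun P hP => (adFam hP.toIsAdequate).down f hrs (ht.2 P hP)⟩
  act := by
    intro X r s t z ht hz
    exact ⟨(chowFam C).act ht.1 hz, fun P hP => (adFam hP.toIsAdequate).act (ht.2 P hP) hz⟩

/-- Homological equivalence. -/
def homI {F : Type w} [Field F] (H : WeilTheoryData.{u, v, w} C F) [IsChowProj C] [IsWeilProj H] :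
    Family C :=
  fun X i =>
  { carrier := {a | C.Deg i a ∧ H.cl a = 0}
    zero_mem' := ⟨Submodule.zero_mem _, map_zero _⟩
    add_mem' := by
      rintro a b ⟨h1, h2⟩ ⟨h3, h4⟩
      exact ⟨Submodule.add_mem _ h1 h3, by rw [map_add, h2, h4, add_zero]⟩
    smul_mem' := by
      rintro q a ⟨h1, h2⟩
      refine ⟨Submodule.smul_mem _ q h1, ?_⟩
      rw [Algebra.smul_def, map_mul, h2, mul_zero] }

lemma isAdequate_homI {F : Type w} [Field F] (H : WeilTheoryData.{u, v, w} C F)
    [hC : IsChowProj C] [hH : IsWeilProj H] : IsAdequate C (homI H) where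
  le_gr X i a ha := ha.1
  pull_mem f i b hb := ⟨C.pull_mem f hb.1, by
    change H.cl (C.pull f b) = 0
    rw [H.cl_pull, hb.2, map_zero]⟩
  push_mem {X Y} f i a ha := ⟨by
      have h5 := C.push_mem f ha.1
      rwa [one_mul] at h5, by
    change H.cl (C.push f a) = 0
    rw [H.cl_push, ha.2, map_zero]⟩
  mul_mem {X i j a b} ha hb := ⟨C.mul_mem ha.1 hb, by
    change H.cl (a * b) = 0
    rw [map_mul, ha.2, zero_mul]⟩

lemma one_ne {F : Type w} [Field F] (H : WeilTheoryData.{u, v, w} C F) [hC : IsChowProj C]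
    [hH : IsWeilProj H] (X : 𝒱.Obj) : (1 : C.A X) ≠ 0 := by
  intro h
  apply hH.one_ne_zero X
  rw [← map_one (H.cl (X := X)), h, map_zero]

end Pool.Agent.H255R.MR
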