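import Pool.Agent.H255R.MR.TDefs

/-!
# Bloch-Beilinson filtrations for a class of varieties: definitions
-/

open CategoryTheory AlgebraicGeometry

universe u v w x

namespace Pool.Agent.H255R.MR

open Pool.Agent.H914 Pool.Agent.H914.VarClass Pool.Agent.H914.VarClass.Obj Pool.Agent.W492.BB
  Pool.Agent.W550.Corr Pool.Agent.TH133 Pool.Agent.H255R.HR

variable {k : Type u} [Field k] {𝒱 : VarClass k} {C : TheoryData.{u, v, 0} 𝒱 ℚ}
  {F : Type w} [Field F]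

/-- A rational subspace of the Chow group `C(X)`. -/
def CycSub (C : TheoryData.{u, v, 0} 𝒱 ℚ) (X : 𝒱.Obj) : Type v := Submodule ℚ (C.A X)

/-- The cycle `z` lies in the subspace `P`. -/
def CycSub.Has {X : 𝒱.Obj} (P : CycSub C X) (z : C.A X) : Prop :=
  (show Submodule ℚ (C.A X) from P).carrier z

/-- The cycle `z` is zero in the Chow group. -/
def RatZero {X : 𝒱.Obj} (z : C.A X) : Prop := z = 0

/-- The cycle `z` is homologically equivalent to zero. -/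
def HomZero (H : WeilTheoryData.{u, v, w} C F) {X : 𝒱.Obj} (z : C.A X) : Prop := H.cl z = 0

/-- The class `φ(z)` of the cycle `z` is zero (if `φ(z)` is the class in Deligne cohomology: `z` is in
the kernel of the Abel-Jacobi map). -/
def AJZero {D : ModData.{u, v, v} C} (φ : ∀ X, C.A X → D.A X) {X : 𝒱.Obj} (z : C.A X) : Prop :=
  φ X z = 0

/-- The steps `Fil X j ν = F^ν CH^j(X)_ℚ` of a filtration, for the varieties `X` in the class `𝒬`, with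
`F^0 = CH^j(X)_ℚ`, `F^1` the cycles homologically equivalent to zero, `F^2` the kernel of
the Abel-Jacobi map, and `F^(j+1) = 0`. -/
structure FilSteps (H : WeilTheoryData.{u, v, w} C F) {D : ModData.{u, v, v} C}
    (φ : ∀ X, C.A X → D.A X) (𝒬 : 𝒱.Obj → Prop)
    (Fil : ∀ X : 𝒱.Obj, ℤ → ℕ → CycSub C X) : Prop where
  anti : ∀ X, 𝒬 X → ∀ (j : ℤ) (ν : ℕ) (z : C.A X), (Fil X j (ν + 1)).Has z → (Fil X j ν).Has z
  zero : ∀ X, 𝒬 X → ∀ (j : ℤ) (z : C.A X), (Fil X j 0).Has z ↔ C.Deg j z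
  one : ∀ X, 𝒬 X → ∀ (j : ℤ) (z : C.A X), (Fil X j 1).Has z ↔ C.Deg j z ∧ HomZero H z
  two : ∀ X, 𝒬 X → ∀ (j : ℤ) (z : C.A X), (Fil X j 2).Has z ↔ C.Deg j z ∧ AJZero φ z
  last : ∀ X, 𝒬 X → ∀ (j : ℕ) (z : C.A X), (Fil X j (j + 1)).Has z → RatZero z

/-- `Γ` is a correspondence in `CH^(dim X + e)(X × Y)`; it acts as `CH^j(X) → CH^(j + e)(Y)`. -/
def IsCorr (C : TheoryData.{u, v, 0} 𝒱 ℚ) {X Y : 𝒱.Obj} (e : ℤ) (Γ : C.A (X.prod Y)) : Prop :=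
  C.Deg (X.dim + e) Γ

/-- The filtration is preserved by the correspondences between the varieties in the class `𝒬`. -/
def FilFunctorial (𝒬 : 𝒱.Obj → Prop) (Fil : ∀ X : 𝒱.Obj, ℤ → ℕ → CycSub C X) : Prop :=
  ∀ X Y, 𝒬 X → 𝒬 Y → ∀ (j e : ℤ) (ν : ℕ) (Γ : C.A (X.prod Y)), IsCorr C e Γ →
    ∀ z, (Fil X j ν).Has z → (Fil Y (j + e) ν).Has (C.act Γ z)

/-- The correspondences between the varieties in the class `𝒬` which act as zero on `H^(2j-ν)(X)` act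
as zero on `gr^ν CH^j(X)`. -/
def FilGraded (H : WeilTheoryData.{u, v, w} C F) (𝒬 : 𝒱.Obj → Prop)
    (Fil : ∀ X : 𝒱.Obj, ℤ → ℕ → CycSub C X) : Prop :=
  ∀ X Y, 𝒬 X → 𝒬 Y → ∀ (j e : ℤ) (ν : ℕ) (Γ : C.A (X.prod Y)), IsCorr C e Γ →
    Kills H Γ (2 * j - ν) → ∀ z, (Fil X j ν).Has z → (Fil Y (j + e) (ν + 1)).Has (C.act Γ z)

/-- `Fil X j ν` is the step `F^ν CH^j(X)_ℚ` of a Bloch-Beilinson filtration for the varieties in the
class `𝒬`. -/
structure IsBB (H : WeilTheoryData.{u, v, w} C F) {D : ModData.{u, v, v} C}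
    (φ : ∀ X, C.A X → D.A X) (𝒬 : 𝒱.Obj → Prop)
    (Fil : ∀ X : 𝒱.Obj, ℤ → ℕ → CycSub C X) : Prop where
  steps : FilSteps H φ 𝒬 Fil
  functorial : FilFunctorial 𝒬 Fil
  graded : FilGraded H 𝒬 Fil

/-- There is a Bloch-Beilinson filtration for the varieties in the class `𝒬`. -/
def HasBB (H : WeilTheoryData.{u, v, w} C F) {D : ModData.{u, v, v} C}
    (φ : ∀ X, C.A X → D.A X) (𝒬 : 𝒱.Obj → Prop) : Prop :=
  ∃ Fil : ∀ X : 𝒱.Obj, ℤ → ℕ → CycSub C X, IsBB H φ 𝒬 Fil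

/-- The varieties `A` and `A × S`, where `A` is the product of `U` and of at most `N` varieties with
the property `Q`, and `S` is a curve in the class `𝒞`. -/
def ProductsAndCurve (U : 𝒱.Obj) (Q : 𝒱.Obj → Prop) (𝒞 : 𝒱.Obj → Prop) (N : ℕ) (X : 𝒱.Obj) :
    Prop :=
  ∃ m ≤ N, ∃ A : 𝒱.Obj, IsProdOf U Q m A ∧ (X = A ∨ ∃ S : 𝒱.Obj, 𝒞 S ∧ X = A.prod S)

/-- The products of `U` and of at most `n` curves in the class `𝒞`. -/
def Products (U : 𝒱.Obj) (𝒞 : 𝒱.Obj → Prop) (n : ℕ) (X : 𝒱.Obj) : Prop :=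
  ∃ m ≤ n, IsProdOf U 𝒞 m X

/-- The varieties dominated by a product of `U` and of at most `n` curves in the class `𝒞`. -/
def Dominated (C : TheoryData.{u, v, 0} 𝒱 ℚ) (U : 𝒱.Obj) (𝒞 : 𝒱.Obj → Prop) (n : ℕ)
    (X : 𝒱.Obj) : Prop :=
  ∃ m ≤ n, ∃ W : 𝒱.Obj, IsProdOf U 𝒞 m W ∧ IsDominatedBy C W X

end Pool.Agent.H255R.MR
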