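import Pool.Agent.H255R.MR.Map
import Pool.Agent.H255R.MR.BBDefs
import Pool.Agent.H255R.PC.Main

/-!
# Extension of a Bloch-Beilinson filtration
-/

open CategoryTheory AlgebraicGeometry

universe u v w x

namespace Pool.Agent.H255R.MR

open Pool.Agent.H914 Pool.Agent.H914.VarClass Pool.Agent.H914.VarClass.Obj Pool.Agent.W492.BB
  Pool.Agent.W550.Corr Pool.Agent.TH133 Pool.Agent.H255R.HR Pool.Agent.H255R.PC

set_option linter.unusedSectionVars false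

variable {k : Type u} [Field k] {𝒱 : VarClass k} {C : TheoryData.{u, v, 0} 𝒱 ℚ}
  [hC : IsChowProj C] {X Y Z : 𝒱.Obj}

include hC in
lemma mulCorr_mem {s : ℤ} {z : C.A X} (hz : C.Deg s z) :
    C.mulCorr z ∈ C.gr (X.prod X) (X.dim + s) := by
  have h := C.push_mem (Obj.lift (𝟙 X) (𝟙 X)) hz
  have e1 : s + 1 * (((X.prod X).dim : ℤ) - (X.dim : ℤ)) = X.dim + s := by
    rw [dim_prod]; push_cast; ring
  rwa [e1] at h

/-- The family of a system of subspaces which is preserved by correspondences. -/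
def famOf (Q : ∀ X : 𝒱.Obj, ℤ → Submodule ℚ (C.A X))
    (hQ : ∀ {X Y : 𝒱.Obj} (Γ : C.A (X.prod Y)) (r e : ℤ) (z : C.A X), z ∈ Q X r →
      C.Deg (X.dim + e) Γ → C.act Γ z ∈ Q Y (r + e)) : Fam (chowMod C) where
  Mem X r t := t ∈ Q X r
  zero X r := Submodule.zero_mem _
  add := fun hs ht => Submodule.add_mem _ hs ht
  smul := fun q ht => Submodule.smul_mem _ q ht
  up := by
    intro X Y f r t ht
    have h := hQ (C.cograph f) r 0 t ht (by rw [add_zero]; exact Y148.BB.cograph_mem f)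
    rw [C.act_cograph, add_zero] at h
    exact h
  down := by
    intro X Y f r s t hrs ht
    have h := hQ (C.graph f) r ((Y.dim : ℤ) - X.dim) t ht
      (by rw [add_sub_cancel]; exact graph_mem' f)
    rw [C.act_graph, show r + ((Y.dim : ℤ) - X.dim) = s by omega] at h
    exact h
  act := by
    intro X r s t z ht hz
    have h := hQ (C.mulCorr z) r s t ht (mulCorr_mem hz)
    rw [C.act_mulCorr] at h
    exact h

variable {F : Type w} [Field F] [CharZero F] {H : WeilTheoryData.{u, v, w} C F}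
  [hH : IsWeilProj H] {D : ModData.{u, v, v} C} {φ : ∀ X, C.A X → D.A X}

/-- The extension of the filtration. -/
def extFil (𝒬 : 𝒱.Obj → Prop) (Fil : ∀ X : 𝒱.Obj, ℤ → ℕ → Submodule ℚ (C.A X)) (X : 𝒱.Obj)
    (j : ℤ) (ν : ℕ) : Submodule ℚ (C.A X) where
  carrier := {z | C.Deg j z ∧ ∀ Y, 𝒬 Y → ∀ (e : ℤ) (Γ : C.A (X.prod Y)), C.Deg (X.dim + e) Γ →
    C.act Γ z ∈ Fil Y (j + e) ν}
  zero_mem' := ⟨Submodule.zero_mem _, fun Y _ e Γ _ => by
    rw [show C.act Γ 0 = 0 from C.act_map_zero Γ]; exact Submodule.zero_mem _⟩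
  add_mem' := by
    rintro a b ⟨ha, ha'⟩ ⟨hb, hb'⟩
    refine ⟨Submodule.add_mem _ ha hb, fun Y hY e Γ hΓ => ?_⟩
    rw [act_map_add C]
    exact Submodule.add_mem _ (ha' Y hY e Γ hΓ) (hb' Y hY e Γ hΓ)
  smul_mem' := by
    rintro q b ⟨hb, hb'⟩
    refine ⟨Submodule.smul_mem _ q hb, fun Y hY e Γ hΓ => ?_⟩
    rw [act_map_smul C]
    exact Submodule.smul_mem _ q (hb' Y hY e Γ hΓ)

lemma mem_extFil {𝒬 : 𝒱.Obj → Prop} {Fil : ∀ X : 𝒱.Obj, ℤ → ℕ → Submodule ℚ (C.A X)} {X : 𝒱.Obj}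
    {j : ℤ} {ν : ℕ} {z : C.A X} : z ∈ extFil 𝒬 Fil X j ν ↔ C.Deg j z ∧ ∀ Y, 𝒬 Y → ∀ (e : ℤ)
      (Γ : C.A (X.prod Y)), C.Deg (X.dim + e) Γ → C.act Γ z ∈ Fil Y (j + e) ν := Iff.rfl

/-- The extension is functorial. -/
lemma extFil_act {𝒬 : 𝒱.Obj → Prop} {Fil : ∀ X : 𝒱.Obj, ℤ → ℕ → Submodule ℚ (C.A X)} {ν : ℕ}
    (Γ : C.A (X.prod Y)) (r e : ℤ) (z : C.A X) (hz : z ∈ extFil 𝒬 Fil X r ν)
    (hΓ : C.Deg (X.dim + e) Γ) : C.act Γ z ∈ extFil 𝒬 Fil Y (r + e) ν := by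
  refine ⟨act_mem' C hΓ hz.1, fun Z hZ e' Δ hΔ => ?_⟩
  rw [← C.act_comp, add_assoc]
  exact hz.2 Z hZ (e + e') _ (comp_mem C hΓ hΔ)

/-- On the class `𝒬` the extension is the given filtration. -/
lemma extFil_eq {𝒬 : 𝒱.Obj → Prop} {Fil : ∀ X : 𝒱.Obj, ℤ → ℕ → Submodule ℚ (C.A X)}
    (h : IsBB H φ 𝒬 Fil) (hX : 𝒬 X) (j : ℤ) (ν : ℕ) (z : C.A X) :
    z ∈ extFil 𝒬 Fil X j ν ↔ z ∈ Fil X j ν := by
  constructor
  · intro hz
    have h1 := hz.2 X hX 0 (dg C X) (by rw [add_zero]; exact dg_mem C X)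
    rwa [act_dg, add_zero] at h1
  · intro hz
    have h0 : ∀ ν, Fil X j ν ≤ Fil X j 0 := by
      intro ν
      induction ν with
      | zero => exact le_rfl
      | succ ν ih => exact fun z hz => ih (h.steps.anti X hX j ν z hz)
    refine ⟨(h.steps.zero X hX j z).1 (h0 ν hz), fun Y hY e Γ hΓ => ?_⟩
    exact h.functorial X Y hX hY j e ν Γ hΓ z hz

/-- Extension of a Bloch-Beilinson filtration to a larger class of varieties. -/
theorem bb_ext (hcM : IsModTheory (chowMod C)) (hD : IsModTheory D)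
    (hφ : IsTransformation (chowMod C) D φ) {𝒬 𝒬' : 𝒱.Obj → Prop}
    (hgood : ∀ (R : ℤ) (𝓜 𝓝 : Fam (chowMod C)), (∀ X, 𝒬 X → GoodM 𝓜 𝓝 R X) →
      ∀ X, 𝒬' X → GoodM 𝓜 𝓝 R X) (h : HasBB H φ 𝒬) : HasBB H φ 𝒬' := by
  obtain ⟨Fil₀, hF₀⟩ := h
  obtain ⟨Fil, hF⟩ : ∃ Fil : ∀ X : 𝒱.Obj, ℤ → ℕ → Submodule ℚ (C.A X), IsBB H φ 𝒬 Fil :=
    ⟨Fil₀, hF₀⟩
  refine ⟨extFil 𝒬 Fil, ?_⟩
  -- the family of the classes in the extension
  let 𝓔 : ℕ → Fam (chowMod C) := fun ν => famOf (fun X r => extFil 𝒬 Fil X r ν)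
    (fun Γ r e z hz hΓ => extFil_act Γ r e z hz hΓ)
  -- the cycles homologically equivalent to zero
  let 𝓚 : Fam (chowMod C) := famOf (fun X r =>
      { carrier := {z | C.Deg r z ∧ H.cl z = 0}
        zero_mem' := ⟨Submodule.zero_mem _, map_zero _⟩
        add_mem' := fun ha hb => ⟨Submodule.add_mem _ ha.1 hb.1, by rw [map_add, ha.2, hb.2, add_zero]⟩
        smul_mem' := fun q a ha => ⟨Submodule.smul_mem _ q ha.1, by rw [cl_smul, ha.2, smul_zero]⟩ })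
    (fun Γ r e z hz hΓ => ⟨act_mem' C hΓ hz.1, by
      rw [cl_act, hz.2]; exact H.act_map_zero _⟩)
  refine ⟨
    { anti := fun X hX j ν z hz => ⟨hz.1, fun Y hY e Γ hΓ => hF.steps.anti Y hY _ _ _ (hz.2 Y hY e Γ hΓ)⟩
      zero := fun X hX j z => ⟨fun hz => hz.1, fun hz => ⟨hz, fun Y hY e Γ hΓ =>
        (hF.steps.zero Y hY _ _).2 (act_mem' C hΓ hz)⟩⟩
      one := ?_
      two := ?_
      last := ?_ }, fun X Y hX hY j e ν Γ hΓ z hz => extFil_act Γ j e z hz hΓ, ?_⟩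
  · -- homological equivalence
    intro X hX j z
    constructor
    · intro hz
      exact hgood j (𝓔 1) 𝓚 (fun Y hY r hr t ht =>
        (hF.steps.one Y hY r t).1 ((extFil_eq hF hY r 1 t).1 ht)) X hX j le_rfl z hz
    · rintro ⟨hz, hz'⟩
      refine ⟨hz, fun Y hY e Γ hΓ => (hF.steps.one Y hY _ _).2 ⟨act_mem' C hΓ hz, ?_⟩⟩
      have h0 : H.cl z = 0 := hz'
      change H.cl (C.act Γ z) = 0
      rw [cl_act, h0]
      exact H.act_map_zero _
  · -- the kernel of the Abel-Jacobi map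
    intro X hX j z
    constructor
    · intro hz
      exact hgood j (𝓔 2) (kerFam hφ (chowFam C)) (fun Y hY r hr t ht =>
        (hF.steps.two Y hY r t).1 ((extFil_eq hF hY r 2 t).1 ht)) X hX j le_rfl z hz
    · rintro ⟨hz, hz'⟩
      refine ⟨hz, fun Y hY e Γ hΓ => (hF.steps.two Y hY _ _).2 ⟨act_mem' C hΓ hz, ?_⟩⟩
      have h1 : C.act Γ z = (chowMod C).down (snd X Y) ((chowMod C).act Γ
        ((chowMod C).up (fst X Y) z)) := rfl
      change φ Y (C.act Γ z) = 0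
      rw [h1, hφ.down, hφ.act, hφ.up, show φ X z = 0 from hz']
      have h2 : D.up (fst X Y) 0 = 0 := map_zero (upH (fst X Y))
      have h3 : D.act Γ 0 = 0 := map_zero (actH Γ)
      have h4 : D.down (snd X Y) 0 = 0 := map_zero (downH (snd X Y))
      rw [h2, h3, h4]
  · -- the last step
    intro X hX j z hz
    refine hgood j (𝓔 (j + 1)) (zeroFam (chowMod C)) (fun Y hY r hr t ht => ?_) X hX j le_rfl z hz
    have h1 : t ∈ Fil Y r (j + 1) := (extFil_eq hF hY r (j + 1) t).1 ht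
    rcases lt_or_ge r 0 with h2 | h2
    · have h3 : C.Deg r t := ht.1
      rw [TheoryData.Deg, C.gr_neg Y r h2] at h3
      exact (Submodule.mem_bot _).1 h3
    · obtain ⟨i, rfl⟩ := Int.eq_ofNat_of_zero_le h2
      have h4 : ∀ n, t ∈ Fil Y i (i + 1 + n) → t ∈ Fil Y i (i + 1) := by
        intro n
        induction n with
        | zero => exact id
        | succ n ih => exact fun h => ih (hF.steps.anti Y hY i _ t h)
      obtain ⟨n, hn⟩ := Nat.exists_eq_add_of_le (show i + 1 ≤ j + 1 by omega)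
      rw [hn] at h1
      exact hF.steps.last Y hY i t (h4 n h1)
  · -- the graded pieces
    intro X X' hX hX' j e ν Γ hΓ hk z hz
    let 𝓖 : Fam (chowMod C) := famOf (fun X r =>
      { carrier := {z | C.Deg r z ∧ ∀ Y, 𝒬 Y → ∀ (e : ℤ) (Γ : C.A (X.prod Y)),
          C.Deg (X.dim + e) Γ → (∀ a : H.A X, H.Deg (2 * r - ν) a → H.act (H.cl Γ) a = 0) →
            C.act Γ z ∈ Fil Y (r + e) (ν + 1)}
        zero_mem' := ⟨Submodule.zero_mem _, fun Y _ e Γ _ _ => by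
          rw [show C.act Γ 0 = 0 from C.act_map_zero Γ]; exact Submodule.zero_mem _⟩
        add_mem' := by
          rintro a b ⟨ha, ha'⟩ ⟨hb, hb'⟩
          refine ⟨Submodule.add_mem _ ha hb, fun Y hY e Γ hΓ hk => ?_⟩
          rw [act_map_add C]
          exact Submodule.add_mem _ (ha' Y hY e Γ hΓ hk) (hb' Y hY e Γ hΓ hk)
        smul_mem' := by
          rintro q b ⟨hb, hb'⟩
          refine ⟨Submodule.smul_mem _ q hb, fun Y hY e Γ hΓ hk => ?_⟩
          rw [act_map_smul C]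
          exact Submodule.smul_mem _ q (hb' Y hY e Γ hΓ hk) })
      (by
        intro X₁ X₂ Γ₀ r e₀ z hz hΓ₀
        refine ⟨act_mem' C hΓ₀ hz.1, fun Y hY e₁ Γ₁ hΓ₁ hk₁ => ?_⟩
        rw [← C.act_comp, add_assoc]
        refine hz.2 Y hY (e₀ + e₁) _ (comp_mem C hΓ₀ hΓ₁) fun a ha => ?_
        rw [actH_comp]
        refine hk₁ _ ?_
        have h5 := H.push_mem (snd X₁ X₂) (H.mul_mem (H.cl_mem hΓ₀) (H.pull_mem (fst X₁ X₂) ha))
        have e5 : 2 * ((X₁.dim : ℤ) + e₀) + (2 * r - ν) +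
            2 * ((X₂.dim : ℤ) - (X₁.prod X₂).dim) = 2 * (r + e₀) - ν := by
          rw [dim_prod]; push_cast; ring
        rw [e5] at h5
        exact h5)
    have h1 : (𝓖).Mem X j z := by
      refine hgood j (𝓔 ν) 𝓖 (fun Y hY r hr t ht => ?_) X hX j le_rfl z hz
      exact ⟨ht.1, fun Y' hY' e' Γ' hΓ' hk' => hF.graded Y Y' hY hY' r e' ν Γ' hΓ' hk' t
        ((extFil_eq hF hY r ν t).1 ht)⟩
    refine ⟨act_mem' C hΓ hz.1, fun Y hY e' Γ' hΓ' => ?_⟩
    rw [← C.act_comp, add_assoc]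
    refine h1.2 Y hY (e + e') _ (comp_mem C hΓ hΓ') fun a ha => ?_
    rw [actH_comp, hk a ha]
    exact H.act_map_zero _

end Pool.Agent.H255R.MR
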