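import Pool.Agent.H255R.MR.BB

/-!
# Bloch-Beilinson filtrations for products of surfaces and of curves
-/

open CategoryTheory AlgebraicGeometry

universe u v w x

namespace Pool.Agent.H255R.MR

open Pool.Agent.H914 Pool.Agent.H914.VarClass Pool.Agent.H914.VarClass.Obj Pool.Agent.W492.BB
  Pool.Agent.W550.Corr Pool.Agent.TH133 Pool.Agent.H255R.HR Pool.Agent.H255R.PC

variable {k : Type u} [Field k] {𝒱 : VarClass k} {C : TheoryData.{u, v, 0} 𝒱 ℚ}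
  [hC : IsChowProj C] {F : Type w} [Field F] [CharZero F] {H : WeilTheoryData.{u, v, w} C F}
  [hH : IsWeilProj H] {D : ModData.{u, v, v} C} {φ : ∀ X, C.A X → D.A X}

omit hC [CharZero F] hH in
lemma HasBB.mono {𝒬 𝒬' : 𝒱.Obj → Prop} (hQ : ∀ X, 𝒬' X → 𝒬 X) (h : HasBB H φ 𝒬) :
    HasBB H φ 𝒬' := by
  obtain ⟨Fil, hF⟩ := h
  exact ⟨Fil,
    { anti := fun X hX => hF.steps.anti X (hQ X hX)
      zero := fun X hX => hF.steps.zero X (hQ X hX)
      one := fun X hX => hF.steps.one X (hQ X hX)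
      two := fun X hX => hF.steps.two X (hQ X hX)
      last := fun X hX => hF.steps.last X (hQ X hX) },
    fun X Y hX hY => hF.functorial X Y (hQ X hX) (hQ Y hY),
    fun X Y hX hY => hF.graded X Y (hQ X hX) (hQ Y hY)⟩

/-- The equivalences for Bloch-Beilinson filtrations. -/
theorem bb_tfae (hcM : IsModTheory (chowMod C)) (hD : IsModTheory D)
    (hφ : IsTransformation (chowMod C) D φ) {𝒞 : 𝒱.Obj → Prop}
    (hG : HasGalQuotients.{u, v, w, v} H 𝒞) (U : 𝒱.Obj) (N : ℕ) :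
    List.TFAE [
      HasBB H φ (ProductsAndCurve U (IsRegDominated.{u, v, w, v} H 𝒞) 𝒞 N),
      HasBB H φ (ProductsAndCurve U (IsDominated.{u, v, v} C 𝒞) 𝒞 N),
      HasBB H φ (Products U 𝒞 (2 * N + 1)),
      HasBB H φ (Dominated C U 𝒞 (2 * N + 1))] := by
  tfae_have 1 → 3 := by
    refine bb_ext hcM hD hφ fun R 𝓜 𝓝 h X hX => ?_
    obtain ⟨n, hn, hX⟩ := hX
    obtain ⟨l, hl, hc, rfl⟩ := exists_app hX
    refine main_appM hG (fun m hm A hA => ⟨h A ⟨m, hm, A, hA, Or.inl rfl⟩, fun S hS =>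
      h _ ⟨m, hm, A, hA, Or.inr ⟨S, hS, rfl⟩⟩⟩) n l 0 U hl hc .base (by omega)
  tfae_have 3 → 4 := by
    refine bb_ext hcM hD hφ fun R 𝓜 𝓝 h X hX => ?_
    obtain ⟨n, hn, W, hW, hX⟩ := hX
    exact (h W ⟨n, hn, hW⟩).dominated hX
  tfae_have 4 → 2 := by
    refine bb_ext hcM hD hφ fun R 𝓜 𝓝 h X hX => ?_
    have h1 : ∀ n ≤ 2 * N + 1, ∀ W : 𝒱.Obj, IsProdOf U 𝒞 n W → GoodM 𝓜 𝓝 R W :=
      fun n hn W hW => h W ⟨n, hn, W, hW, 𝟙 W, 0, 1, rfl, C.one_mem W, C.push_id 1⟩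
    obtain ⟨m, hm, A, hA, rfl | ⟨S, hS, rfl⟩⟩ := hX
    · exact conv_appM h1 hA [] (by simp) (by simp; omega)
    · exact conv_appM h1 hA [S] (by simpa using hS) (by simp; omega)
  tfae_have 2 → 1 := by
    refine HasBB.mono fun X hX => ?_
    obtain ⟨m, hm, A, hA, h⟩ := hX
    exact ⟨m, hm, A, hA.mono fun Y hY => hY.2, h⟩
  tfae_finish

end Pool.Agent.H255R.MR
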