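import Pool.Agent.H255R.MR.FamDefs
import Pool.Agent.H255R.HR.Conv

/-!
# The main step for module theories
-/

open CategoryTheory AlgebraicGeometry

universe u v w x

namespace Pool.Agent.H255R.MR

open Pool.Agent.H914 Pool.Agent.H914.VarClass Pool.Agent.H914.VarClass.Obj Pool.Agent.W492.BB
  Pool.Agent.W550.Corr Pool.Agent.TH133 Pool.Agent.H255R.HR Pool.Agent.H255R.PC

set_option linter.unusedSectionVars false

variable {k : Type u} [Field k] {𝒱 : VarClass k} {C : TheoryData.{u, v, 0} 𝒱 ℚ}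
  {M : ModData.{u, v, x} C} {X Y Z S T V W : 𝒱.Obj}

section basic

variable [hM : IsModTheory M]

include hM

lemma up_add (f : X ⟶ Y) (s t : M.A Y) : M.up f (s + t) = M.up f s + M.up f t :=
  hM.isAdditive.up_add f s t

lemma down_add (f : X ⟶ Y) (s t : M.A X) : M.down f (s + t) = M.down f s + M.down f t :=
  hM.isAdditive.down_add f s t

/-- Pull-back as a homomorphism. -/
def upH (f : X ⟶ Y) : M.A Y →+ M.A X where
  toFun := M.up f
  map_zero' := by
    have h := up_add (M := M) f 0 0
    rw [add_zero] at h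
    exact left_eq_add.1 h
  map_add' := up_add f

/-- Push-forward as a homomorphism. -/
def downH (f : X ⟶ Y) : M.A X →+ M.A Y where
  toFun := M.down f
  map_zero' := by
    have h := down_add (M := M) f 0 0
    rw [add_zero] at h
    exact left_eq_add.1 h
  map_add' := down_add f

/-- The action of a cycle as a homomorphism. -/
def actH (z : C.A X) : M.A X →+ M.A X where
  toFun := M.act z
  map_zero' := by
    have h := hM.isAdditive.act_add z 0 0
    rw [add_zero] at h
    exact left_eq_add.1 h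
  map_add' := hM.isAdditive.act_add z

/-- The action of cycles as a homomorphism. -/
def actH' (t : M.A X) : C.A X →+ M.A X where
  toFun := fun z => M.act z t
  map_zero' := by
    have h := hM.isAdditive.add_act 0 0 t
    rw [add_zero] at h
    exact left_eq_add.1 h
  map_add' := fun z z' => hM.isAdditive.add_act z z' t

lemma up_smul (f : X ⟶ Y) (q : ℚ) (t : M.A Y) : M.up f (q • t) = q • M.up f t :=
  map_rat_smul (upH f) q t

lemma down_smul (f : X ⟶ Y) (q : ℚ) (t : M.A X) : M.down f (q • t) = q • M.down f t :=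
  map_rat_smul (downH f) q t

lemma smul_act (z : C.A X) (q : ℚ) (t : M.A X) : M.act (q • z) t = q • M.act z t :=
  map_rat_smul (actH' t) q z

lemma up_sum {ι : Type*} (s : Finset ι) (f : X ⟶ Y) (t : ι → M.A Y) :
    M.up f (∑ i ∈ s, t i) = ∑ i ∈ s, M.up f (t i) := map_sum (upH f) t s

lemma down_sum {ι : Type*} (s : Finset ι) (f : X ⟶ Y) (t : ι → M.A X) :
    M.down f (∑ i ∈ s, t i) = ∑ i ∈ s, M.down f (t i) := map_sum (downH f) t s

lemma up_id (t : M.A X) : M.up (𝟙 X) t = t := hM.isFunctorial.up_id t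

lemma up_comp (f : X ⟶ Y) (g : Y ⟶ Z) (t : M.A Z) : M.up (f ≫ g) t = M.up f (M.up g t) :=
  hM.isFunctorial.up_comp f g t

lemma down_id (t : M.A X) : M.down (𝟙 X) t = t := hM.isFunctorial.down_id t

lemma down_comp (f : X ⟶ Y) (g : Y ⟶ Z) (t : M.A X) : M.down (f ≫ g) t = M.down g (M.down f t) :=
  hM.isFunctorial.down_comp f g t

lemma one_act (t : M.A X) : M.act 1 t = t := hM.isFunctorial.one_act t

/-- Morphisms of finite degree. -/
lemma down_up {f : Y ⟶ X} {m : ℚ} (hf : IsOfDegree C f m) (t : M.A X) :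
    M.down f (M.up f t) = m • t := by
  have h := hM.isFunctorial.proj' f 1 t
  rw [one_act] at h
  rw [h, show C.down f 1 = m • 1 from hf.2, smul_act, one_act]

lemma down_up_iso [hI : HasIso C] (f : X ⟶ Y) (g : Y ⟶ X) (h1 : f ≫ g = 𝟙 X) (h2 : g ≫ f = 𝟙 Y)
    (t : M.A Y) : M.down f (M.up f t) = t := by
  have h := hM.isFunctorial.proj' f 1 t
  rw [one_act] at h
  rw [h, hI.push_one f g h1 h2, one_act]

/-- The translates by the elements of the group. -/
lemma translateM {G : Type} [Group G] [Fintype G] {L : Subgroup G} (hL : IsDoublyTransitive L)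
    [hI : HasIso C] {P Q : 𝒱.Obj} (q : P ⟶ Q) (R : G → (P ⟶ P)) (h1 : R 1 = 𝟙 P)
    (hm : ∀ g h, R (g * h) = R h ≫ R g) (hq : ∀ h ∈ L, R h ≫ q = q)
    (hd : IsOfDegree C q (Nat.card L)) (t : M.A Q) :
    (∀ g ∈ L, M.down q (M.down (R g) (M.up q t)) = (Nat.card L : ℚ) • t) ∧
    (∀ g, g ∉ L → M.down q (M.down (R g) (M.up q t)) =
      ((Nat.card G : ℚ) - Nat.card L)⁻¹ • (M.down q (∑ g : G, M.down (R g) (M.up q t)) -
        (Nat.card L : ℚ) ^ 2 • t)) := by
  classical
  have hiso : ∀ g, R g ≫ R g⁻¹ = 𝟙 P ∧ R g⁻¹ ≫ R g = 𝟙 P := by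
    intro g
    rw [← hm, ← hm, inv_mul_cancel, mul_inv_cancel, h1]
    exact ⟨rfl, rfl⟩
  have hmul : ∀ (g g' : G) (x : M.A P), M.down (R (g * g')) x = M.down (R g) (M.down (R g') x) := by
    intro g g' x
    rw [hm, down_comp]
  have hinv : ∀ g ∈ L, M.down (R g) (M.up q t) = M.up q t := by
    intro g hg
    have e1 : M.up q t = M.up (R g) (M.up q t) := by
      rw [← up_comp, hq g hg]
    rw [e1, down_up_iso (R g) (R g⁻¹) (hiso g).1 (hiso g).2, ← e1]
  have hpush : ∀ g ∈ L, ∀ x : M.A P, M.down q (M.down (R g) x) = M.down q x := by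
    intro g hg x
    rw [← down_comp, hq g hg]
  have h2 : ∀ g ∈ L, M.down q (M.down (R g) (M.up q t)) = (Nat.card L : ℚ) • t := by
    intro g hg
    rw [hpush g hg, down_up hd]
  refine ⟨h2, ?_⟩
  have h3 : ∀ g g' : G, g ∉ L → g' ∉ L → M.down q (M.down (R g') (M.up q t)) =
      M.down q (M.down (R g) (M.up q t)) := by
    intro g g' hg hg'
    obtain ⟨x, hx, y, hy, rfl⟩ := hL.2 g g' hg hg'
    rw [mul_assoc, hmul, hpush x hx, hmul, hinv y hy]
  intro g hg
  set a := M.down q (M.down (R g) (M.up q t)) with ha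
  have h4 : M.down q (∑ g' : G, M.down (R g') (M.up q t)) =
      ∑ g' : G, (if g' ∈ L then (Nat.card L : ℚ) • t else a) := by
    rw [down_sum]
    refine Finset.sum_congr rfl fun g' _ => ?_
    split_ifs with hg'
    · exact h2 g' hg'
    · exact h3 g g' hg hg'
  have hcard : (Finset.univ.filter (fun g' : G => g' ∈ L)).card = Nat.card L := by
    rw [Nat.card_eq_fintype_card, Fintype.card_subtype]
  have hcardG : (Finset.univ.filter (fun g' : G => g' ∉ L)).card + Nat.card L = Nat.card G := by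
    have h6 := Finset.card_filter_add_card_filter_not (s := (Finset.univ : Finset G))
      (p := fun g' => g' ∈ L)
    rw [hcard, Finset.card_univ, ← Nat.card_eq_fintype_card] at h6
    omega
  have h5 : Nat.card L ≠ Nat.card G := fun h => hL.1 (Subgroup.card_eq_iff_eq_top L |>.1 h)
  have hne : (Nat.card G : ℚ) - Nat.card L ≠ 0 := by
    rw [sub_ne_zero]
    exact_mod_cast h5.symm
  have hc : ((Finset.univ.filter (fun g' : G => g' ∉ L)).card : ℚ) =
      (Nat.card G : ℚ) - Nat.card L := by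
    rw [← hcardG]; push_cast; ring
  rw [h4, Finset.sum_ite, Finset.sum_const, Finset.sum_const, hcard,
    ← Nat.cast_smul_eq_nsmul ℚ, ← Nat.cast_smul_eq_nsmul ℚ, hc, smul_smul, ← sq, add_sub_cancel_left,
    inv_smul_smul₀ hne]

end basic

end Pool.Agent.H255R.MR
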