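import Pool.Agent.H255R.HR.Defs

/-!
# Functors on the Chow correspondences: definitions
-/

open CategoryTheory AlgebraicGeometry

universe u v w x

namespace Pool.Agent.H255R.MR

open Pool.Agent.H914 Pool.Agent.H914.VarClass Pool.Agent.H914.VarClass.Obj Pool.Agent.W492.BB
  Pool.Agent.W550.Corr Pool.Agent.TH133 Pool.Agent.H255R.HR

variable {k : Type u} [Field k] {𝒱 : VarClass k}

/-- The data of a module theory over the Chow groups: rational vector spaces `M(X)` for all varieties
`X`, with pull-backs, push-forwards, and an action of the Chow group `CH(X)` on `M(X)`. -/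
structure ModData (C : TheoryData.{u, v, 0} 𝒱 ℚ) where
  /-- the vector space `M(X)` -/
  A : 𝒱.Obj → Type x
  [group : ∀ X, AddCommGroup (A X)]
  [module : ∀ X, Module ℚ (A X)]
  /-- pull-back -/
  up : ∀ {X Y : 𝒱.Obj}, (X ⟶ Y) → A Y → A X
  /-- push-forward -/
  down : ∀ {X Y : 𝒱.Obj}, (X ⟶ Y) → A X → A Y
  /-- product with a cycle -/
  act : ∀ {X : 𝒱.Obj}, C.A X → A X → A X

attribute [instance] ModData.group ModData.module

variable {C : TheoryData.{u, v, 0} 𝒱 ℚ}

/-- Pull-backs, push-forwards and products with cycles are additive. -/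
structure IsAdditive (M : ModData.{u, v, x} C) : Prop where
  up_add : ∀ {X Y : 𝒱.Obj} (f : X ⟶ Y) (s t : M.A Y), M.up f (s + t) = M.up f s + M.up f t
  down_add : ∀ {X Y : 𝒱.Obj} (f : X ⟶ Y) (s t : M.A X),
    M.down f (s + t) = M.down f s + M.down f t
  act_add : ∀ {X : 𝒱.Obj} (z : C.A X) (s t : M.A X), M.act z (s + t) = M.act z s + M.act z t
  add_act : ∀ {X : 𝒱.Obj} (z z' : C.A X) (t : M.A X), M.act (z + z') t = M.act z t + M.act z' t

/-- The rules for pull-backs, push-forwards and products with cycles: functoriality, products,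
projection formulas, and base change for products of morphisms. -/
structure IsFunctorial (M : ModData.{u, v, x} C) : Prop where
  one_act : ∀ {X : 𝒱.Obj} (t : M.A X), M.act 1 t = t
  mul_act : ∀ {X : 𝒱.Obj} (z z' : C.A X) (t : M.A X), M.act (C.mul z z') t = M.act z (M.act z' t)
  up_id : ∀ {X : 𝒱.Obj} (t : M.A X), M.up (𝟙 X) t = t
  up_comp : ∀ {X Y Z : 𝒱.Obj} (f : X ⟶ Y) (g : Y ⟶ Z) (t : M.A Z),
    M.up (f ≫ g) t = M.up f (M.up g t)
  down_id : ∀ {X : 𝒱.Obj} (t : M.A X), M.down (𝟙 X) t = t
  down_comp : ∀ {X Y Z : 𝒱.Obj} (f : X ⟶ Y) (g : Y ⟶ Z) (t : M.A X),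
    M.down (f ≫ g) t = M.down g (M.down f t)
  up_act : ∀ {X Y : 𝒱.Obj} (f : X ⟶ Y) (z : C.A Y) (t : M.A Y),
    M.up f (M.act z t) = M.act (C.up f z) (M.up f t)
  proj : ∀ {X Y : 𝒱.Obj} (f : X ⟶ Y) (z : C.A Y) (t : M.A X),
    M.down f (M.act (C.up f z) t) = M.act z (M.down f t)
  proj' : ∀ {X Y : 𝒱.Obj} (f : X ⟶ Y) (z : C.A X) (t : M.A Y),
    M.down f (M.act z (M.up f t)) = M.act (C.down f z) t
  base : ∀ (Z : 𝒱.Obj) {X X' Y Y' : 𝒱.Obj} (f : X ⟶ X') (g : Y ⟶ Y')
    (t : M.A (Z.prod (X'.prod Y))),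
    M.up (prodMap (𝟙 Z) (prodMap f (𝟙 Y'))) (M.down (prodMap (𝟙 Z) (prodMap (𝟙 X') g)) t) =
      M.down (prodMap (𝟙 Z) (prodMap (𝟙 X) g)) (M.up (prodMap (𝟙 Z) (prodMap f (𝟙 Y))) t)

/-- `M` is a module theory over the Chow groups. (Examples: the Chow groups themselves, with rational
coefficients; the higher Chow groups `⊕_q CH^q(X, n)_ℚ`, that is, motivic cohomology, or
the `K`-groups `K_n(X)_ℚ`; every Weil cohomology; Deligne cohomology; continuous `ℓ`-adic
cohomology.) -/
class IsModTheory (M : ModData.{u, v, x} C) : Prop where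
  isAdditive : IsAdditive M
  isFunctorial : IsFunctorial M

/-- The action on `M(Z × V)` of the correspondence `[Z] × (e × e')` with divisor classes or
fundamental classes `e` and `e'` on `V`: the class `[Z × e'] · q^* q_* ([Z × e] · t)`, where
`q : Z × V ⟶ Z` is the projection. -/
noncomputable def thr (M : ModData.{u, v, x} C) {Z V : 𝒱.Obj} (e e' : C.A V)
    (t : M.A (Z.prod V)) : M.A (Z.prod V) :=
  M.act (C.up (snd Z V) e') (M.up (fst Z V) (M.down (fst Z V) (M.act (C.up (snd Z V) e) t)))

/-- The finite group `G` acts by the automorphisms `ρ g` on the curve `V`, and the quotient `V / G`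
is the projective line, in the form of the property: there are divisor classes `o` and `o'` on `V`
such that `∑_g (1 × ρ(g))_* t` is the result of the action of the correspondence `o × V + V × o'`, for
all varieties `Z`, all module theories `M`, and all `t ∈ M(Z × V)`. (If `q : V ⟶ V / G` is the
quotient map, then the sum of the graphs is `(q × q)^* Δ = q^* pt × V + V × q^* pt` in
`CH^1(V × V)`.) -/
def HasLineQuotient (C : TheoryData.{u, v, 0} 𝒱 ℚ) {G : Type} [Group G] [Fintype G] {V : 𝒱.Obj}
    (ρ : G → (V ⟶ V)) : Prop :=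
  ∃ o o' : C.A V, C.Deg 1 o ∧ C.Deg 1 o' ∧ ∀ M : ModData.{u, v, x} C, IsModTheory M →
    ∀ (Z : 𝒱.Obj) (t : M.A (Z.prod V)),
      ∑ g : G, M.down (prodMap (𝟙 Z) (ρ g)) t = thr M o 1 t + thr M 1 o' t

/-- `b : Y ⟶ X` is a birational morphism of surfaces, in the form of the property: there are divisor
classes `e j`, `e' j` on `Y` (the total transforms `E j` of the exceptional curves, and `-E j`) such
that, for all varieties `Z` and all module theories `M`, every `t ∈ M(Z × Y)` is the sum of
`(1 × b)^* (1 × b)_* t` and of the results of the action of the correspondences `e j × e' j`.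
(The diagonal of `Y` is `(b × b)^* Δ_X + ∑_j e j × e' j`.) -/
def IsBlowup (C : TheoryData.{u, v, 0} 𝒱 ℚ) {Y X : 𝒱.Obj} (b : Y ⟶ X) : Prop :=
  Y.dim = X.dim ∧ ∃ (n : ℕ) (e e' : Fin n → C.A Y), (∀ j, C.Deg 1 (e j) ∧ C.Deg 1 (e' j)) ∧
    ∀ M : ModData.{u, v, x} C, IsModTheory M → ∀ (Z : 𝒱.Obj) (t : M.A (Z.prod Y)),
      t = M.up (prodMap (𝟙 Z) b) (M.down (prodMap (𝟙 Z) b) t) + ∑ j, thr M (e j) (e' j) t

/-- The surface `X` is dominated by the product of two curves `V` and `W` in the class `𝒞`: there is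
a rational map from `V × W` to `X` of finite degree. In other words, there are a surface `Y`, a
birational morphism `b : Y ⟶ V × W`, and a morphism `f : Y ⟶ X` of degree `m ≠ 0`. -/
def IsDominated (C : TheoryData.{u, v, 0} 𝒱 ℚ) (𝒞 : 𝒱.Obj → Prop) (X : 𝒱.Obj) : Prop :=
  X.dim = 2 ∧ ∃ (V W Y : 𝒱.Obj) (b : Y ⟶ V.prod W) (f : Y ⟶ X) (m : ℚ), 𝒞 V ∧ 𝒞 W ∧
    IsBlowup.{u, v, x} C b ∧ IsOfDegree C f m ∧ m ≠ 0

/-- The surface `X` is a smooth projective model of the quotient of `V × W` by the finite group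
`G`, in the form of the following property of the birational morphism `b : Y ⟶ V × W` and of
the morphism `π : Y ⟶ X` of degree `|G|`: `(1 × b)_* (1 × π)^* (1 × π)_* (1 × b)^* t` is the sum of
the classes `(1 × ρ(g) × τ(g))_* t`, for all varieties `Z`, all module theories `M`, and all
`t ∈ M(Z × (V × W))`. -/
def IsQuotientModel (C : TheoryData.{u, v, 0} 𝒱 ℚ) {G : Type} [Group G] [Fintype G]
    {V W Y X : 𝒱.Obj} (ρ : G → (V ⟶ V)) (τ : G → (W ⟶ W)) (b : Y ⟶ V.prod W) (π : Y ⟶ X) : Prop :=
  IsOfDegree C π (Nat.card G) ∧ ∀ M : ModData.{u, v, x} C, IsModTheory M →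
    ∀ (Z : 𝒱.Obj) (t : M.A (Z.prod (V.prod W))),
      M.down (prodMap (𝟙 Z) b) (M.up (prodMap (𝟙 Z) π) (M.down (prodMap (𝟙 Z) π)
        (M.up (prodMap (𝟙 Z) b) t))) = ∑ g : G, M.down (prodMap (𝟙 Z) (prodMap (ρ g) (τ g))) t

variable {F : Type w} [Field F] (H : WeilTheoryData.{u, v, w} C F)

/-- The class of the surfaces which are regular (with respect to the Weil cohomology `H`) and
dominated by a product of two curves in `𝒞`. -/
def IsRegDominated (𝒞 : 𝒱.Obj → Prop) (X : 𝒱.Obj) : Prop :=
  IsRegularSurface H X ∧ IsDominated.{u, v, x} C 𝒞 X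

/-- The surface `X` is a smooth projective model of the quotient `(V × W) / G`, where `V` and `W`
are curves in the class `𝒞` which are Galois coverings of the projective line with the same group
`G`, and the curves `S` and `T` are the quotients of `V` and of `W` by a subgroup `L` such that `G`
acts doubly transitively on `G / L`. (Examples: `S` and `T` are coverings of the projective line of
the same degree `d ≥ 2`, with simple branching, `V` and `W` are their Galois closures, `G` is the
symmetric group of degree `d`, and `L` is the stabiliser of a point; or `V = S` and `W = T` are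
hyperelliptic curves, or elliptic curves, and `G` is generated by the involution.) The properties of
these maps are required for the Weil cohomology `H`, and for all module theories. -/
def IsGalQuotient (𝒞 : 𝒱.Obj → Prop) (S T X : 𝒱.Obj) : Prop :=
  ∃ (G : Type) (_ : Group G) (_ : Fintype G) (L : Subgroup G) (V W : 𝒱.Obj) (ρ : G → (V ⟶ V))
    (τ : G → (W ⟶ W)) (p : V ⟶ S) (r : W ⟶ T) (Y : 𝒱.Obj) (b : Y ⟶ V.prod W) (π : Y ⟶ X),
    IsDoublyTransitive L ∧ 𝒞 V ∧ 𝒞 W ∧
    (IsGaloisOverLine H L ρ p ∧ IsGaloisOverLine H L τ r ∧ IsBirational H b ∧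
      ∀ y : H.A (V.prod W),
        H.down b (H.up π (H.down π (H.up b y))) = ∑ g : G, H.down (prodMap (ρ g) (τ g)) y) ∧
    HasLineQuotient.{u, v, x} C ρ ∧ HasLineQuotient.{u, v, x} C τ ∧ IsBlowup.{u, v, x} C b ∧
      IsQuotientModel.{u, v, x} C ρ τ b π

/-- `𝒞` is a class of curves, and for any two curves `S` and `T` in `𝒞` there is a surface `X` as in
`IsGalQuotient`. (Examples: all curves, over an algebraically closed field of characteristic
zero, since `S` and `T` are coverings of the projective line of the same degree with simple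
branching; over an algebraically closed field of any characteristic, the elliptic and the
hyperelliptic curves; one hyperelliptic curve.) -/
def HasGalQuotients (𝒞 : 𝒱.Obj → Prop) : Prop :=
  (∀ S : 𝒱.Obj, 𝒞 S → S.dim = 1) ∧
    ∀ S T : 𝒱.Obj, 𝒞 S → 𝒞 T → ∃ X : 𝒱.Obj, IsGalQuotient.{u, v, w, x} H 𝒞 S T X

end Pool.Agent.H255R.MR
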