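import Pool.Agent.H255R.MR.MDefs

/-!
# Frobenius operators on module theories: definitions
-/

open CategoryTheory AlgebraicGeometry

universe u v w x

namespace Pool.Agent.H255R.MR

open Pool.Agent.H914 Pool.Agent.H914.VarClass Pool.Agent.H914.VarClass.Obj Pool.Agent.W492.BB
  Pool.Agent.W550.Corr Pool.Agent.TH133 Pool.Agent.H255R.HR

variable {k : Type u} [Field k] {𝒱 : VarClass k} {C : TheoryData.{u, v, 0} 𝒱 ℚ}

/-- The additive operators `Fr` on the cohomology groups `D(X)` commute with the pull-backs, and with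
the push-forwards and the products with cycles up to the powers of `q` given by the Tate
twists. -/
structure IsFrobenius (D : ModData.{u, v, x} C) (q : ℚ) (Fr : ∀ X, D.A X → D.A X) : Prop where
  add : ∀ {X : 𝒱.Obj} (s t : D.A X), Fr X (s + t) = Fr X s + Fr X t
  up : ∀ {X Y : 𝒱.Obj} (f : X ⟶ Y) (t : D.A Y), Fr X (D.up f t) = D.up f (Fr Y t)
  down : ∀ {X Y : 𝒱.Obj} (f : X ⟶ Y) (t : D.A X),
    q ^ X.dim • Fr Y (D.down f t) = q ^ Y.dim • D.down f (Fr X t)
  act : ∀ {X : 𝒱.Obj} {s : ℤ} {z : C.A X} (t : D.A X), C.Deg s z →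
    Fr X (D.act z t) = q ^ s • D.act z (Fr X t)

end Pool.Agent.H255R.MR
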