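import Pool.Agent.H255R.MR.Map
import Pool.Agent.H255R.MR.EigDefs

/-!
# Eigenspaces of Frobenius operators
-/

open CategoryTheory AlgebraicGeometry

universe u v w x

namespace Pool.Agent.H255R.MR

open Pool.Agent.H914 Pool.Agent.H914.VarClass Pool.Agent.H914.VarClass.Obj Pool.Agent.W492.BB
  Pool.Agent.W550.Corr Pool.Agent.TH133 Pool.Agent.H255R.HR

set_option linter.unusedSectionVars false

variable {k : Type u} [Field k] {𝒱 : VarClass k} {C : TheoryData.{u, v, 0} 𝒱 ℚ}

section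

variable {D : ModData.{u, v, x} C} [hD : IsModTheory D] {q : ℚ} {Fr : ∀ X, D.A X → D.A X}
  (hF : IsFrobenius D q Fr)

include hF

/-- The operator as a homomorphism. -/
def frH (X : 𝒱.Obj) : D.A X →+ D.A X where
  toFun := Fr X
  map_zero' := by
    have h := hF.add (X := X) 0 0
    rw [add_zero] at h
    exact left_eq_add.1 h
  map_add' := hF.add

lemma fr_smul {X : 𝒱.Obj} (a : ℚ) (t : D.A X) : Fr X (a • t) = a • Fr X t :=
  map_rat_smul (frH hF X) a t

/-- The eigenspaces: the classes `t` of weight `r` with `Fr t = q ^ r t`. -/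
def eigFam (hq : q ≠ 0) (𝓓 : Fam D) : Fam D where
  Mem X r t := 𝓓.Mem X r t ∧ Fr X t = q ^ r • t
  zero X r := ⟨𝓓.zero X r, by rw [smul_zero]; exact map_zero (frH hF X)⟩
  add := fun hs ht => ⟨𝓓.add hs.1 ht.1, by rw [hF.add, hs.2, ht.2, smul_add]⟩
  smul := fun a ht => ⟨𝓓.smul a ht.1, by rw [fr_smul hF, ht.2, smul_comm]⟩
  up := by
    intro X Y f r t ht
    refine ⟨𝓓.up f ht.1, ?_⟩
    rw [hF.up, ht.2]
    exact map_rat_smul (upH f) _ t
  down := by
    intro X Y f r s t h ht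
    refine ⟨𝓓.down f h ht.1, ?_⟩
    have h1 := hF.down f t
    rw [ht.2] at h1
    have h2 : D.down f (q ^ r • t) = q ^ r • D.down f t := map_rat_smul (downH f) _ t
    rw [h2, smul_smul] at h1
    have h3 : q ^ X.dim ≠ 0 := pow_ne_zero _ hq
    have h4 : Fr Y (D.down f t) = (q ^ X.dim)⁻¹ • ((q ^ Y.dim * q ^ r) • D.down f t) := by
      rw [← h1, inv_smul_smul₀ h3]
    rw [h4, smul_smul]
    congr 1
    have h5 : s = r + Y.dim - X.dim := by omega
    rw [h5, zpow_sub₀ hq, zpow_add₀ hq, zpow_natCast, zpow_natCast]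
    field_simp
  act := by
    intro X r s t z ht hz
    refine ⟨𝓓.act ht.1 hz, ?_⟩
    have h2 : D.act z (q ^ r • t) = q ^ r • D.act z t := map_rat_smul (actH z) _ t
    rw [hF.act t hz, ht.2, h2, smul_smul, zpow_add₀ hq, mul_comm]

end

end Pool.Agent.H255R.MR
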