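import Pool.Agent.H255R.MR.Core

/-!
# Two curves replaced by a surface, for module theories
-/

open CategoryTheory AlgebraicGeometry

universe u v w x

namespace Pool.Agent.H255R.MR

open Pool.Agent.H914 Pool.Agent.H914.VarClass Pool.Agent.H914.VarClass.Obj Pool.Agent.W492.BB
  Pool.Agent.W550.Corr Pool.Agent.TH133 Pool.Agent.H255R.HR Pool.Agent.H255R.PC

set_option linter.unusedSectionVars false

variable {k : Type u} [Field k] {𝒱 : VarClass k} {C : TheoryData.{u, v, 0} 𝒱 ℚ}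
  {M : ModData.{u, v, x} C} {X Y Z S T V W : 𝒱.Obj}

/-- The classes of the family `𝓜`, in the weights at most `R`, are in the family `𝓝`. -/
def GoodM (𝓜 𝓝 : Fam M) (R : ℤ) (X : 𝒱.Obj) : Prop :=
  ∀ r ≤ R, ∀ t : M.A X, 𝓜.Mem X r t → 𝓝.Mem X r t

lemma Fam.neg (𝓜 : Fam M) {r : ℤ} {t : M.A X} (ht : 𝓜.Mem X r t) : 𝓜.Mem X r (-t) := by
  have h := 𝓜.smul (-1) ht
  rwa [neg_smul, one_smul] at h

lemma Fam.sub (𝓜 : Fam M) {r : ℤ} {s t : M.A X} (hs : 𝓜.Mem X r s) (ht : 𝓜.Mem X r t) :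
    𝓜.Mem X r (s - t) := by
  rw [sub_eq_add_neg]
  exact 𝓜.add hs (𝓜.neg ht)

lemma Fam.sum (𝓜 : Fam M) {r : ℤ} {n : ℕ} {t : Fin n → M.A X}
    (h : ∀ j, 𝓜.Mem X r (t j)) : 𝓜.Mem X r (∑ j, t j) := by
  classical
  exact Finset.sum_induction t (fun x => 𝓜.Mem X r x) (fun _ _ => 𝓜.add) (𝓜.zero X r)
    (fun j _ => h j)

lemma prodMap_one : prodMap (𝟙 X) (𝟙 Z) = 𝟙 (X.prod Z) := by
  rw [prodMap, Category.comp_id, Category.comp_id, lift_eta]

variable [hC : IsChowProj C] [hM : IsModTheory M]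

include hC

omit hM in
lemma thr_mem {𝓜 𝓝 : Fam M} {R : ℤ} (hZ : GoodM 𝓜 𝓝 R Z) {a b : ℤ} {e e' : C.A V}
    (he : C.Deg a e) (he' : C.Deg b e') (hab : a + b = V.dim) (hb : 0 ≤ b) {r : ℤ} (hr : r ≤ R)
    {t : M.A (Z.prod V)} (ht : 𝓜.Mem (Z.prod V) r t) : 𝓝.Mem (Z.prod V) r (thr M e e' t) := by
  have h1 := 𝓜.act ht (C.pull_mem (snd Z V) he)
  have h2 := 𝓜.down (fst Z V) (s := r - b) (by rw [dim_prod]; push_cast; omega) h1
  have h3 := 𝓝.act (𝓝.up (fst Z V) (hZ (r - b) (by omega) _ h2)) (C.pull_mem (snd Z V) he')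
  rwa [sub_add_cancel] at h3

include hM

/-- The sum over the group acting on one factor. -/
lemma line_mem {G : Type} [Group G] [Fintype G] {ρ : G → (V ⟶ V)}
    (hρ : HasLineQuotient.{u, v, x} C ρ) (hV : V.dim = 1) {P : 𝒱.Obj} (e : P ⟶ Z.prod V)
    (e' : Z.prod V ⟶ P) (R' : G → (P ⟶ P)) (hR : ∀ g, R' g = e ≫ prodMap (𝟙 Z) (ρ g) ≫ e')
    (hP : P.dim = Z.dim + 1) {𝓜 𝓝 : Fam M} {R : ℤ} (hZ : GoodM 𝓜 𝓝 R Z) {r : ℤ} (hr : r ≤ R)
    {y : M.A P} (hy : 𝓜.Mem P r y) : 𝓝.Mem P r (∑ g : G, M.down (R' g) y) := by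
  obtain ⟨o, o', ho, ho', h⟩ := hρ
  have h1 : ∑ g : G, M.down (R' g) y = M.down e' (thr M o 1 (M.down e y) + thr M 1 o' (M.down e y)) := by
    rw [← h M hM Z, down_sum]
    exact Finset.sum_congr rfl fun g _ => by rw [hR, down_comp, down_comp]
  have h2 : 𝓜.Mem (Z.prod V) r (M.down e y) := 𝓜.down e (by rw [dim_prod, hP, hV]) hy
  rw [h1]
  refine 𝓝.down e' (by rw [dim_prod, hP, hV]) (𝓝.add ?_ ?_)
  · exact thr_mem hZ ho (C.one_mem V) (by rw [hV]; norm_num) le_rfl hr h2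
  · exact thr_mem hZ (C.one_mem V) ho' (by rw [hV]; norm_num) (by norm_num) hr h2

omit hM in
lemma degree_prod {f : Y ⟶ X} {m : ℚ} (hf : IsOfDegree C f m) (Z : 𝒱.Obj) :
    IsOfDegree C (prodMap (𝟙 Z) f) m := by
  refine ⟨by simp only [dim_prod]; rw [hf.1], ?_⟩
  have h1 : (1 : C.A (Z.prod Y)) = C.ext 1 1 := by
    rw [TheoryData.ext, map_one, map_one, one_mul]
  have h2 : (1 : C.A (Z.prod X)) = C.ext 1 1 := by
    rw [TheoryData.ext, map_one, map_one, one_mul]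
  have h3 : C.push f 1 = m • (1 : C.A X) := hf.2
  change C.push (prodMap (𝟙 Z) f) 1 = _
  rw [h1, Pool.Agent.TH133.push_ext C, C.push_id, h3, h2, TheoryData.ext, TheoryData.ext,
    map_smul, mul_smul_comm]

omit hM in
lemma degree_prod' {f : Y ⟶ X} {m : ℚ} (hf : IsOfDegree C f m) (Z : 𝒱.Obj) :
    IsOfDegree C (prodMap f (𝟙 Z)) m := by
  refine ⟨by simp only [dim_prod]; rw [hf.1], ?_⟩
  have h1 : (1 : C.A (Y.prod Z)) = C.ext 1 1 := by
    rw [TheoryData.ext, map_one, map_one, one_mul]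
  have h2 : (1 : C.A (X.prod Z)) = C.ext 1 1 := by
    rw [TheoryData.ext, map_one, map_one, one_mul]
  have h3 : C.push f 1 = m • (1 : C.A X) := hf.2
  change C.push (prodMap f (𝟙 Z)) 1 = _
  rw [h1, Pool.Agent.TH133.push_ext C, C.push_id, h3, h2, TheoryData.ext, TheoryData.ext,
    map_smul, smul_mul_assoc]

/-- The composite through the quotient of the product. -/
lemma through_eq {G : Type} [Group G] [Fintype G] {ρ : G → (V ⟶ V)} {τ : G → (W ⟶ W)}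
    {b : Y ⟶ V.prod W} {π : Y ⟶ X} (hq : IsQuotientModel.{u, v, x} C ρ τ b π) (p : V ⟶ S)
    (r : W ⟶ T) (Z : 𝒱.Obj) (t : M.A (Z.prod (S.prod T))) :
    M.down (prodMap (𝟙 Z) (b ≫ prodMap p r)) (M.up (prodMap (𝟙 Z) π)
      (M.down (prodMap (𝟙 Z) π) (M.up (prodMap (𝟙 Z) (b ≫ prodMap p r)) t))) =
    ∑ g : G, M.down (prodMap (𝟙 Z) (prodMap p (𝟙 T))) (M.down (prodMap (𝟙 Z) (prodMap (ρ g) (𝟙 T)))
      (M.up (prodMap (𝟙 Z) (prodMap p (𝟙 T))) (M.down (prodMap (𝟙 Z) (prodMap (𝟙 S) r))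
        (M.down (prodMap (𝟙 Z) (prodMap (𝟙 S) (τ g)))
          (M.up (prodMap (𝟙 Z) (prodMap (𝟙 S) r)) t))))) := by
  have e1 : prodMap (𝟙 Z) (b ≫ prodMap p r) = prodMap (𝟙 Z) b ≫ prodMap (𝟙 Z) (prodMap p r) := by
    rw [prodMap_comp, Category.id_comp]
  rw [e1, up_comp, down_comp, hq.2 M hM Z, down_sum]
  refine Finset.sum_congr rfl fun g _ => ?_
  have e2 : prodMap (𝟙 Z) (prodMap p r) =
      prodMap (𝟙 Z) (prodMap p (𝟙 W)) ≫ prodMap (𝟙 Z) (prodMap (𝟙 S) r) := by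
    rw [prodMap_comp, prodMap_comp, Category.id_comp, Category.id_comp, Category.comp_id]
  have e3 : prodMap (𝟙 Z) (prodMap p r) =
      prodMap (𝟙 Z) (prodMap (𝟙 V) r) ≫ prodMap (𝟙 Z) (prodMap p (𝟙 T)) := by
    rw [prodMap_comp, prodMap_comp, Category.id_comp, Category.id_comp, Category.comp_id]
  have e4 : prodMap (𝟙 Z) (prodMap (ρ g) (τ g)) =
      prodMap (𝟙 Z) (prodMap (𝟙 V) (τ g)) ≫ prodMap (𝟙 Z) (prodMap (ρ g) (𝟙 W)) := by
    rw [prodMap_comp, prodMap_comp, Category.id_comp, Category.id_comp, Category.comp_id]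
  have e5 : prodMap (𝟙 Z) (prodMap (ρ g) (𝟙 W)) ≫ prodMap (𝟙 Z) (prodMap (𝟙 V) r) =
      prodMap (𝟙 Z) (prodMap (𝟙 V) r) ≫ prodMap (𝟙 Z) (prodMap (ρ g) (𝟙 T)) := by
    simp only [prodMap_comp, Category.id_comp, Category.comp_id]
  have h1 : M.up (prodMap (𝟙 Z) (prodMap p r)) t =
      M.up (prodMap (𝟙 Z) (prodMap p (𝟙 W))) (M.up (prodMap (𝟙 Z) (prodMap (𝟙 S) r)) t) := by
    rw [e2, up_comp]
  have h2 : ∀ y : M.A (Z.prod (V.prod W)), M.down (prodMap (𝟙 Z) (prodMap p r)) y =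
      M.down (prodMap (𝟙 Z) (prodMap p (𝟙 T))) (M.down (prodMap (𝟙 Z) (prodMap (𝟙 V) r)) y) :=
    fun y => by rw [e3, down_comp]
  rw [h1, h2, e4, down_comp, ← down_comp (prodMap (𝟙 Z) (prodMap (ρ g) (𝟙 W))), e5, down_comp,
    ← hM.isFunctorial.base, ← hM.isFunctorial.base]

/-- The step: two curves are replaced by a surface. -/
lemma stepM {𝓜 𝓝 : Fam M} {R : ℤ} {F : Type w} [Field F] {H : WeilTheoryData.{u, v, w} C F}
    {𝒞 : 𝒱.Obj → Prop} (h𝒞 : ∀ S, 𝒞 S → S.dim = 1) (hS : S.dim = 1)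
    (hT : T.dim = 1) (hX : IsGalQuotient.{u, v, w, x} H 𝒞 S T X) (h1 : GoodM 𝓜 𝓝 R (Z.prod S))
    (h2 : GoodM 𝓜 𝓝 R (Z.prod T)) (h3 : GoodM 𝓜 𝓝 R (Z.prod X)) :
    GoodM 𝓜 𝓝 R (Z.prod (S.prod T)) := by
  classical
  obtain ⟨G, _, _, L, V, W, ρ, τ, p, r, Y, b, π, hL, hV, hW, ⟨hρ, hτ, hb, -⟩, hρ', hτ', -, hq⟩ := hX
  have hV1 := h𝒞 V hV
  have hW1 := h𝒞 W hW
  intro i hi t ht
  -- the two one-factor actions
  set qS := prodMap (𝟙 Z) (prodMap p (𝟙 T)) with hqS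
  set qT := prodMap (𝟙 Z) (prodMap (𝟙 S) r) with hqT
  have key : ∀ s : M.A (Z.prod (S.prod T)), _ := fun s =>
    translateM hL qS (fun g => prodMap (𝟙 Z) (prodMap (ρ g) (𝟙 T)))
      (by rw [hρ.one, prodMap_one, prodMap_one])
      (fun g h => by
        simp only [hρ.mul, prodMap_comp, Category.id_comp])
      (fun g hg => by
        simp only [hqS, prodMap_comp, Category.id_comp, hρ.quot g hg])
      (degree_prod (degree_prod' hρ.deg T) Z) s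
  have key' : ∀ s : M.A (Z.prod (S.prod T)), _ := fun s =>
    translateM hL qT (fun g => prodMap (𝟙 Z) (prodMap (𝟙 S) (τ g)))
      (by rw [hτ.one, prodMap_one, prodMap_one])
      (fun g h => by
        simp only [hτ.mul, prodMap_comp, Category.id_comp])
      (fun g hg => by
        simp only [hqT, prodMap_comp, Category.id_comp, hτ.quot g hg])
      (degree_prod (degree_prod hτ.deg S) Z) s
  obtain ⟨g₀, hg₀⟩ : ∃ g, g ∉ L := by
    by_contra hcon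
    push Not at hcon
    exact hL.1 (Subgroup.eq_top_iff' L |>.2 hcon)
  have hdV : (Z.prod (V.prod T)).dim = (Z.prod (S.prod T)).dim := by
    simp only [dim_prod]; omega
  have hdW : (Z.prod (S.prod W)).dim = (Z.prod (S.prod T)).dim := by
    simp only [dim_prod]; omega
  obtain ⟨k1, k2⟩ := key' t
  set DT := M.down qT (∑ g : G, M.down (prodMap (𝟙 Z) (prodMap (𝟙 S) (τ g))) (M.up qT t)) with hDT
  set B := ((Nat.card G : ℚ) - Nat.card L)⁻¹ • (DT - (Nat.card L : ℚ) ^ 2 • t) with hB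
  obtain ⟨l1, l2⟩ := key B
  set DS := M.down qS (∑ g : G, M.down (prodMap (𝟙 Z) (prodMap (ρ g) (𝟙 T))) (M.up qS B)) with hDS
  -- the memberships
  have mB : 𝓜.Mem (Z.prod (S.prod T)) i B := by
    rw [← k2 g₀ hg₀]
    exact 𝓜.down _ (by rw [hdW]) (𝓜.down _ rfl (𝓜.up _ ht))
  have mDT : 𝓝.Mem (Z.prod (S.prod T)) i DT := by
    refine 𝓝.down _ (by rw [hdW]) ?_
    refine line_mem hτ' hW1 (Z := Z.prod S) (aJ Z S W) (aI Z S W) _ (fun g => ?_)
      (by simp only [dim_prod]; omega) h1 hi (𝓜.up _ ht)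
    apply prod_ext
    · simp [prodMap, aI, aJ]
    · apply prod_ext <;> simp [prodMap, aI, aJ]
  have mDS : 𝓝.Mem (Z.prod (S.prod T)) i DS := by
    refine 𝓝.down _ (by rw [hdV]) ?_
    refine line_mem hρ' hV1 (Z := Z.prod T)
      (Obj.lift (prodMap (𝟙 Z) (snd V T)) (snd Z (V.prod T) ≫ fst V T))
      (Obj.lift (fst (Z.prod T) V ≫ fst Z T)
        (Obj.lift (snd (Z.prod T) V) (fst (Z.prod T) V ≫ snd Z T))) _ (fun g => ?_)
      (by simp only [dim_prod]; omega) h2 hi (𝓜.up _ mB)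
    apply prod_ext
    · simp [prodMap]
    · apply prod_ext <;> simp [prodMap]
  have hYX : Y.dim = X.dim := hq.1.1
  have hYS : Y.dim = (S.prod T).dim := by
    rw [hb.1, dim_prod, dim_prod, hV1, hW1, hS, hT]
  have hZY : (Z.prod Y).dim = (Z.prod (S.prod T)).dim := by
    rw [dim_prod, dim_prod Z (S.prod T), hYS]
  have hZX : (Z.prod Y).dim = (Z.prod X).dim := by
    rw [dim_prod, dim_prod, hYX]
  have hF := through_eq hq p r Z t
  set F₁ := M.down (prodMap (𝟙 Z) (b ≫ prodMap p r)) (M.up (prodMap (𝟙 Z) π)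
      (M.down (prodMap (𝟙 Z) π) (M.up (prodMap (𝟙 Z) (b ≫ prodMap p r)) t))) with hF₁
  have mF : 𝓝.Mem (Z.prod (S.prod T)) i F₁ := by
    refine 𝓝.down _ (by rw [hZY]) (𝓝.up _ (h3 i hi _ ?_))
    exact 𝓜.down _ (by rw [hZX]) (𝓜.up _ ht)
  -- the sum
  have hcard : (Finset.univ.filter (fun g' : G => g' ∈ L)).card = Nat.card L := by
    rw [Nat.card_eq_fintype_card, Fintype.card_subtype]
  have hcardG : (Finset.univ.filter (fun g' : G => g' ∉ L)).card + Nat.card L = Nat.card G := by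
    have h6 := Finset.card_filter_add_card_filter_not (s := (Finset.univ : Finset G))
      (p := fun g' => g' ∈ L)
    rw [hcard, Finset.card_univ, ← Nat.card_eq_fintype_card] at h6
    omega
  have h5 : Nat.card L ≠ Nat.card G := fun h => hL.1 (Subgroup.card_eq_iff_eq_top L |>.1 h)
  have hne : (Nat.card G : ℚ) - Nat.card L ≠ 0 := by
    rw [sub_ne_zero]
    exact_mod_cast h5.symm
  have hc : ((Finset.univ.filter (fun g' : G => g' ∉ L)).card : ℚ) =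
      (Nat.card G : ℚ) - Nat.card L := by
    rw [← hcardG]; push_cast; ring
  have hsum : F₁ = ∑ g : G, (if g ∈ L then (Nat.card L : ℚ) • ((Nat.card L : ℚ) • t) else
      ((Nat.card G : ℚ) - Nat.card L)⁻¹ • (DS - (Nat.card L : ℚ) ^ 2 • B)) := by
    rw [hF]
    refine Finset.sum_congr rfl fun g _ => ?_
    split_ifs with hg
    · rw [k1 g hg, (key _).1 g hg]
    · rw [k2 g hg, l2 g hg]
  rw [Finset.sum_ite, Finset.sum_const, Finset.sum_const, hcard,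
    ← Nat.cast_smul_eq_nsmul ℚ, ← Nat.cast_smul_eq_nsmul ℚ, hc,
    smul_inv_smul₀ hne] at hsum
  have hfin : (cst G L) • t = F₁ - DS +
      ((Nat.card L : ℚ) ^ 2 * ((Nat.card G : ℚ) - Nat.card L)⁻¹) • DT := by
    rw [hsum, hB, cst]
    simp only [smul_sub, smul_smul]
    have e1 : (Nat.card L : ℚ) ^ 3 + (Nat.card L : ℚ) ^ 4 / ((Nat.card G : ℚ) - Nat.card L) =
        (Nat.card L : ℚ) * ((Nat.card L : ℚ) * (Nat.card L : ℚ)) +
          (Nat.card L : ℚ) ^ 2 * (((Nat.card G : ℚ) - Nat.card L)⁻¹ * (Nat.card L : ℚ) ^ 2) := by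
      field_simp
    rw [e1, add_smul]
    abel
  have hmem : 𝓝.Mem (Z.prod (S.prod T)) i ((cst G L) • t) := by
    rw [hfin]
    exact 𝓝.add (𝓝.sub mF mDS) (𝓝.smul _ mDT)
  have h7 := 𝓝.smul (cst G L)⁻¹ hmem
  rwa [inv_smul_smul₀ (cst_pos hL.1).ne'] at h7

end Pool.Agent.H255R.MR
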