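import Pool.Agent.H255R.MR.Defs

/-!
# Transformations of module theories, and the Chow groups
-/

open CategoryTheory AlgebraicGeometry

universe u v w x

namespace Pool.Agent.H255R.MR

open Pool.Agent.H914 Pool.Agent.H914.VarClass Pool.Agent.H914.VarClass.Obj Pool.Agent.W492.BB
  Pool.Agent.W550.Corr Pool.Agent.TH133 Pool.Agent.H255R.HR

variable {k : Type u} [Field k] {𝒱 : VarClass k} {C : TheoryData.{u, v, 0} 𝒱 ℚ}

/-- The maps `φ X : M(X) → D(X)` are additive and compatible with pull-backs, push-forwards and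
products with cycles. -/
structure IsTransformation (M D : ModData.{u, v, x} C) (φ : ∀ X, M.A X → D.A X) : Prop where
  add : ∀ {X : 𝒱.Obj} (s t : M.A X), φ X (s + t) = φ X s + φ X t
  up : ∀ {X Y : 𝒱.Obj} (f : X ⟶ Y) (t : M.A Y), φ X (M.up f t) = D.up f (φ Y t)
  down : ∀ {X Y : 𝒱.Obj} (f : X ⟶ Y) (t : M.A X), φ Y (M.down f t) = D.down f (φ X t)
  act : ∀ {X : 𝒱.Obj} (z : C.A X) (t : M.A X), φ X (M.act z t) = D.act z (φ X t)

/-- The Chow groups, as a module theory. -/
def chowMod (C : TheoryData.{u, v, 0} 𝒱 ℚ) : ModData.{u, v, v} C where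
  A := C.A
  up := fun f t => C.up f t
  down := fun f t => C.down f t
  act := fun z t => C.mul z t

end Pool.Agent.H255R.MR
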