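import Pool.Agent.H255R.MR.MDefs

/-!
# Topologies on module theories: definitions
-/

open CategoryTheory AlgebraicGeometry

universe u v w x

namespace Pool.Agent.H255R.MR

open Pool.Agent.H914 Pool.Agent.H914.VarClass Pool.Agent.H914.VarClass.Obj Pool.Agent.W492.BB
  Pool.Agent.W550.Corr Pool.Agent.TH133 Pool.Agent.H255R.HR

variable {k : Type u} [Field k] {𝒱 : VarClass k} {C : TheoryData.{u, v, 0} 𝒱 ℚ}

/-- The groups `D(X)` carry topologies such that the addition, the multiplication with rational
numbers, the pull-backs, the push-forwards and the products with cycles are continuous. -/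
structure IsTopological (D : ModData.{u, v, x} C) [∀ X, TopologicalSpace (D.A X)] : Prop where
  add : ∀ X, Continuous fun p : D.A X × D.A X => p.1 + p.2
  smul : ∀ X (q : ℚ), Continuous fun t : D.A X => q • t
  up : ∀ {X Y : 𝒱.Obj} (f : X ⟶ Y), Continuous fun t : D.A Y => D.up f t
  down : ∀ {X Y : 𝒱.Obj} (f : X ⟶ Y), Continuous fun t : D.A X => D.down f t
  act : ∀ {X : 𝒱.Obj} (z : C.A X), Continuous fun t : D.A X => D.act z t

/-- The image of `φ X` is dense in the weights `r ≤ R`: every open set which contains a class of weight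
`r` in `D(X)` contains the image of a class of weight `r` in `M(X)` (the classes of weight `r` are
those of the families `𝓜` and `𝓓`). -/
def DenseUpTo {M D : ModData.{u, v, x} C} [∀ X, TopologicalSpace (D.A X)]
    (φ : ∀ X, M.A X → D.A X) (𝓜 : Fam M) (𝓓 : Fam D) (R : ℤ) (X : 𝒱.Obj) : Prop :=
  ∀ r ≤ R, ∀ d : D.A X, 𝓓.Mem X r d → ∀ O : Set (D.A X), IsOpen O → d ∈ O →
    ∃ t : M.A X, 𝓜.Mem X r t ∧ φ X t ∈ O

end Pool.Agent.H255R.MR
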