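import Pool.Agent.H255R.MR.Map
import Pool.Agent.H255R.MR.TopDefs

/-!
# Closures of families
-/

open CategoryTheory AlgebraicGeometry

universe u v w x

namespace Pool.Agent.H255R.MR

open Pool.Agent.H914 Pool.Agent.H914.VarClass Pool.Agent.H914.VarClass.Obj Pool.Agent.W492.BB
  Pool.Agent.W550.Corr Pool.Agent.TH133 Pool.Agent.H255R.HR

set_option linter.unusedSectionVars false

variable {k : Type u} [Field k] {𝒱 : VarClass k} {C : TheoryData.{u, v, 0} 𝒱 ℚ}

/-- The closure of a family. -/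
def closFam {D : ModData.{u, v, x} C} [∀ X, TopologicalSpace (D.A X)] (hτ : IsTopological D)
    (𝓝 : Fam D) : Fam D where
  Mem X r d := d ∈ closure {d' | 𝓝.Mem X r d'}
  zero X r := subset_closure (𝓝.zero X r)
  add := fun {X r s t} hs ht => map_mem_closure₂ (hτ.add X) hs ht fun a ha b hb => 𝓝.add ha hb
  smul := fun {X r t} q ht => map_mem_closure (hτ.smul X q) ht fun a ha => 𝓝.smul q ha
  up := by
    intro X Y f r t ht
    exact map_mem_closure (hτ.up f) ht fun a ha => 𝓝.up f ha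
  down := by
    intro X Y f r s t h ht
    exact map_mem_closure (hτ.down f) ht fun a ha => 𝓝.down f h ha
  act := by
    intro X r s t z ht hz
    exact map_mem_closure (hτ.act z) ht fun a ha => 𝓝.act ha hz

lemma good_dense {M D : ModData.{u, v, x} C} [hM : IsModTheory M] [hD : IsModTheory D]
    {φ : ∀ X, M.A X → D.A X} (hφ : IsTransformation M D φ) [∀ X, TopologicalSpace (D.A X)]
    (hτ : IsTopological D) (𝓜 : Fam M) (𝓓 : Fam D) (R : ℤ) (X : 𝒱.Obj) :
    GoodM 𝓓 (closFam hτ (imFam hφ 𝓜)) R X ↔ DenseUpTo φ 𝓜 𝓓 R X := by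
  constructor
  · intro h r hr d hd O hO hdO
    obtain ⟨y, hy, t, ht, rfl⟩ := mem_closure_iff.1 (h r hr d hd) O hO hdO
    exact ⟨t, ht, hy⟩
  · intro h r hr d hd
    refine mem_closure_iff.2 fun O hO hdO => ?_
    obtain ⟨t, ht, h1⟩ := h r hr d hd O hO hdO
    exact ⟨φ X t, h1, t, ht, rfl⟩

end Pool.Agent.H255R.MR
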